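import Pool.Agent.Helper48K9.SE.Sier

/-!
# Martin's axiom and splittings of `ω₁`
-/

set_option autoImplicit false

open Set Cardinal

namespace Pool.Agent.Helper48K9.SE

/-- the countable chain condition: every set of pairwise incompatible conditions is countable -/
def CCC (P : Type) [Preorder P] : Prop :=
  ∀ A : Set P, (∀ p ∈ A, ∀ q ∈ A, p ≠ q → ¬ ∃ s, s ≤ p ∧ s ≤ q) → A.Countable

/-- Martin's axiom for `ℵ₁` dense sets: for every nonempty ccc preorder and every family of at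
most `ℵ₁` dense sets there is a filter meeting all of them. -/
def MartinAxiomAlephOne : Prop :=
  ∀ (P : Type) [Preorder P] [Nonempty P], CCC P → ∀ (ι : Type) (D : ι → Set P), #ι ≤ aleph 1 →
    (∀ i, ∀ p, ∃ q ≤ p, q ∈ D i) →
    ∃ G : Set P, G.Nonempty ∧ (∀ p ∈ G, ∀ q ∈ G, ∃ s ∈ G, s ≤ p ∧ s ≤ q) ∧
      (∀ p ∈ G, ∀ q, p ≤ q → q ∈ G) ∧ ∀ i, ∃ p ∈ G, p ∈ D i

section Poset

variable {Ξ : Type} (k : Ξ → Set W)

/-- conditions: a finite partial colouring, and the promise that no further element of the sets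
`k ξ`, `ξ ∈ F`, gets a colour less than `n` -/
structure Cond (k : Ξ → Set W) where
  /-- domain -/
  dom : Finset W
  /-- the colouring -/
  col : W → ℕ
  /-- the sets of the promise -/
  F : Finset Ξ
  /-- the bound of the promise -/
  n : ℕ

instance : Preorder (Cond k) where
  le q p := p.dom ⊆ q.dom ∧ (∀ γ ∈ p.dom, q.col γ = p.col γ) ∧ p.F ⊆ q.F ∧ p.n ≤ q.n ∧
    ∀ γ ∈ q.dom, γ ∉ p.dom → q.col γ < p.n → ∀ ξ ∈ p.F, γ ∉ k ξ
  le_refl p := ⟨subset_rfl, fun _ _ => rfl, subset_rfl, le_rfl, fun γ h h' => absurd h h'⟩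
  le_trans s q p := by
    rintro ⟨a1, a2, a3, a4, a5⟩ ⟨b1, b2, b3, b4, b5⟩
    refine ⟨b1.trans a1, fun γ hγ => (a2 γ (b1 hγ)).trans (b2 γ hγ), b3.trans a3, b4.trans a4, ?_⟩
    intro γ h1 h2 h3 ξ hξ
    by_cases hq : γ ∈ q.dom
    · exact b5 γ hq h2 (by rw [← a2 γ hq]; exact h3) ξ hξ
    · exact a5 γ h1 hq (h3.trans_le b4) ξ (b3 hξ)

variable {k}

theorem le_iff {q p : Cond k} : q ≤ p ↔ p.dom ⊆ q.dom ∧ (∀ γ ∈ p.dom, q.col γ = p.col γ) ∧
    p.F ⊆ q.F ∧ p.n ≤ q.n ∧ ∀ γ ∈ q.dom, γ ∉ p.dom → q.col γ < p.n → ∀ ξ ∈ p.F, γ ∉ k ξ :=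
  Iff.rfl

theorem ccc {r : W → ℝ} (hr : Function.Injective r) {N : Ξ → ℕ}
    (hk : ∀ ξ, ∀ T : Finset W, (T : Set W) ⊆ k ξ → StrictAntiOn r T → T.card ≤ N ξ) :
    CCC (Cond k) := by
  classical
  intro A hA
  by_contra hAu
  have hkc : ∀ ξ, (k ξ).Countable := fun ξ => countable_of_thin hr (hk ξ)
  -- constant size and constant bound
  obtain ⟨d, M, hdM⟩ : ∃ d M, ¬ {p ∈ A | p.dom.card = d ∧ ∑ ξ ∈ p.F, N ξ = M}.Countable := by
    by_contra hcon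
    push Not at hcon
    apply hAu
    refine (countable_iUnion fun d => countable_iUnion fun M => hcon d M).mono ?_
    intro p hp
    simp only [mem_iUnion]
    exact ⟨_, _, hp, rfl, rfl⟩
  set A₁ : Set (Cond k) := {p ∈ A | p.dom.card = d ∧ ∑ ξ ∈ p.F, N ξ = M} with hA₁
  -- the root
  let Q : ℕ → Prop := fun m => ∃ R : Finset W, R.card = m ∧ ¬ {p ∈ A₁ | R ⊆ p.dom}.Countable
  have hQ0 : Q 0 := ⟨∅, rfl, by simpa using hdM⟩
  obtain ⟨R, hR1, hR2⟩ : Q (Nat.findGreatest Q d) := Nat.findGreatest_spec (Nat.zero_le d) hQ0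
  have hRmax : ∀ γ ∉ R, {p ∈ A₁ | R ⊆ p.dom ∧ γ ∈ p.dom}.Countable := by
    intro γ hγ
    by_contra hcon
    have h1 : Q (R.card + 1) := by
      refine ⟨insert γ R, Finset.card_insert_of_notMem hγ, ?_⟩
      intro h2
      apply hcon
      refine h2.mono ?_
      rintro p ⟨hp1, hp2, hp3⟩
      exact ⟨hp1, Finset.insert_subset hp3 hp2⟩
    by_cases hle : R.card + 1 ≤ d
    · refine Nat.findGreatest_is_greatest ?_ hle h1
      omega
    · obtain ⟨R', hR'1, hR'2⟩ := h1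
      apply hR'2
      refine (countable_empty).mono ?_
      rintro p ⟨hp1, hp2⟩
      have h3 := Finset.card_le_card hp2
      have h4 : p.dom.card = d := hp1.2.1
      omega
  set A₂ : Set (Cond k) := {p ∈ A₁ | R ⊆ p.dom} with hA₂
  -- constant colours on the root
  obtain ⟨cR, hcR⟩ : ∃ cR : R → ℕ, ¬ {p ∈ A₂ | ∀ γ : R, p.col γ = cR γ}.Countable := by
    by_contra hcon
    push Not at hcon
    apply hR2
    refine (countable_iUnion hcon).mono ?_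
    intro p hp
    simp only [mem_iUnion]
    exact ⟨fun γ => p.col γ, hp, fun γ => rfl⟩
  set A₃ : Set (Cond k) := {p ∈ A₂ | ∀ γ : R, p.col γ = cR γ} with hA₃
  have hroot : ∀ γ ∉ R, {p ∈ A₃ | γ ∈ p.dom}.Countable := by
    intro γ hγ
    refine (hRmax γ hγ).mono ?_
    rintro p ⟨hp1, hp2⟩
    exact ⟨hp1.1.1, hp1.1.2, hp2⟩
  have hunc : Uncountable A₃ := by
    rw [← not_countable_iff]
    exact fun h => hcR h.to_set
  have hne : (Filter.cocountable : Filter A₃).NeBot := by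
    refine Filter.neBot_iff.2 fun h => ?_
    have h1 : (∅ : Set A₃) ∈ (Filter.cocountable : Filter A₃) := by rw [h]; exact Filter.mem_bot
    rw [Filter.mem_cocountable, compl_empty] at h1
    exact not_countable_iff.2 hunc (countable_univ_iff.1 h1)
  let 𝒰 : Ultrafilter A₃ := Ultrafilter.of Filter.cocountable
  have h𝒰 : ∀ S : Set A₃, S.Countable → ∀ᶠ q in (𝒰 : Filter A₃), q ∉ S := by
    intro S hS
    have h1 : Sᶜ ∈ (Filter.cocountable : Filter A₃) := by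
      rw [Filter.mem_cocountable, compl_compl]
      exact hS
    exact Ultrafilter.of_le _ h1
  have hcnt : ∀ γ ∉ R, {q : A₃ | γ ∈ q.1.dom}.Countable := by
    intro γ hγ
    have h1 := hroot γ hγ
    refine (h1.preimage Subtype.val_injective).mono ?_
    intro q hq
    exact ⟨q.2, hq⟩
  -- the reason of incompatibility
  have key : ∀ p : A₃, ∀ᶠ q : A₃ in (𝒰 : Filter A₃), ∃ γ ∈ p.1.dom, γ ∉ R ∧ ∃ ξ ∈ q.1.F, γ ∈ k ξ := by
    intro p
    have e1 : ∀ᶠ q : A₃ in (𝒰 : Filter A₃), q ∉ ({p} : Set A₃) := h𝒰 _ (countable_singleton p)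
    have e2 : ∀ᶠ q : A₃ in (𝒰 : Filter A₃),
        q ∉ ⋃ γ ∈ {γ : W | γ ∈ p.1.dom ∧ γ ∉ R}, {q : A₃ | γ ∈ q.1.dom} := by
      apply h𝒰
      apply Countable.biUnion
      · exact (p.1.dom.countable_toSet).mono fun γ hγ => hγ.1
      · intro γ hγ
        exact hcnt γ hγ.2
    have e3 : ∀ᶠ q : A₃ in (𝒰 : Filter A₃),
        q ∉ ⋃ γ ∈ {γ : W | (∃ ξ ∈ p.1.F, γ ∈ k ξ) ∧ γ ∉ R}, {q : A₃ | γ ∈ q.1.dom} := by
      apply h𝒰
      apply Countable.biUnion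
      · have h1 : (⋃ ξ ∈ (p.1.F : Set Ξ), k ξ).Countable :=
          (p.1.F.countable_toSet).biUnion fun ξ _ => hkc ξ
        refine h1.mono ?_
        rintro γ ⟨⟨ξ, hξ1, hξ2⟩, -⟩
        simp only [mem_iUnion]
        exact ⟨ξ, hξ1, hξ2⟩
      · intro γ hγ
        exact hcnt γ hγ.2
    filter_upwards [e1, e2, e3] with q hq1 hq2 hq3
    by_contra hcon
    push Not at hcon
    simp only [mem_iUnion, not_exists, mem_ofPred_eq] at hq2 hq3
    have hpq : p.1 ≠ q.1 := fun h => hq1 (by rw [mem_singleton_iff]; exact (Subtype.ext h).symm)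
    refine hA p.1 p.2.1.1.1 q.1 q.2.1.1.1 hpq ?_
    have hR : ∀ γ, γ ∈ p.1.dom → γ ∈ q.1.dom → γ ∈ R := by
      intro γ h1 h2
      by_contra h3
      exact hq2 γ ⟨h1, h3⟩ h2
    refine ⟨⟨p.1.dom ∪ q.1.dom, fun γ => if γ ∈ p.1.dom then p.1.col γ else q.1.col γ,
      p.1.F ∪ q.1.F, max p.1.n q.1.n⟩, ?_, ?_⟩
    · rw [le_iff]
      refine ⟨Finset.subset_union_left, fun γ hγ => if_pos hγ, Finset.subset_union_left,
        le_max_left _ _, ?_⟩
      intro γ h1 h2 _ ξ hξ h3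
      have h4 : γ ∈ q.1.dom := (Finset.mem_union.1 h1).resolve_left h2
      have h5 : γ ∉ R := fun h => h2 (p.2.1.2 h)
      exact hq3 γ ⟨⟨ξ, hξ, h3⟩, h5⟩ h4
    · rw [le_iff]
      refine ⟨Finset.subset_union_right, ?_, Finset.subset_union_right, le_max_right _ _, ?_⟩
      · intro γ hγ
        by_cases hp : γ ∈ p.1.dom
        · have h1 := hR γ hp hγ
          have h2 := p.2.2 ⟨γ, h1⟩
          have h3 := q.2.2 ⟨γ, h1⟩
          simp only [if_pos hp]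
          rw [h2, h3]
        · simp only [if_neg hp]
      · intro γ h1 h2 _ ξ hξ h3
        have h4 : γ ∈ p.1.dom := (Finset.mem_union.1 h1).resolve_right h2
        have h5 : γ ∉ R := fun h => h2 (q.2.1.2 h)
        exact hcon γ h4 h5 ξ hξ h3
  -- the uncountable set of reasons
  set Z : Set W := {γ | γ ∉ R ∧ ∀ᶠ q : A₃ in (𝒰 : Filter A₃), ∃ ξ ∈ q.1.F, γ ∈ k ξ} with hZ
  have hZu : ¬ Z.Countable := by
    intro hZc
    apply not_countable_iff.2 hunc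
    rw [← countable_univ_iff]
    have h1 : (⋃ γ ∈ Z, {p : A₃ | γ ∈ p.1.dom}).Countable :=
      hZc.biUnion fun γ hγ => hcnt γ hγ.1
    refine h1.mono ?_
    intro p _
    have h2 := key p
    have h3 : ∃ γ ∈ p.1.dom, ∀ᶠ q : A₃ in (𝒰 : Filter A₃), γ ∉ R ∧ ∃ ξ ∈ q.1.F, γ ∈ k ξ := by
      by_contra hcon
      push Not at hcon
      have h4 : ∀ γ ∈ p.1.dom, ∀ᶠ q : A₃ in (𝒰 : Filter A₃), ¬ (γ ∉ R ∧ ∃ ξ ∈ q.1.F, γ ∈ k ξ) := by
        intro γ hγ
        filter_upwards [hcon γ hγ] with q hq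
        rintro ⟨a1, ξ, a2, a3⟩
        exact hq a1 ξ a2 a3
      have h6 : ∀ᶠ q : A₃ in (𝒰 : Filter A₃), ∀ γ ∈ p.1.dom,
          ¬ (γ ∉ R ∧ ∃ ξ ∈ q.1.F, γ ∈ k ξ) :=
        (Filter.eventually_all_finset p.1.dom).2 h4
      obtain ⟨q, hq1, hq2⟩ := (h2.and h6).exists
      obtain ⟨γ, hγ1, hγ2, hγ3⟩ := hq1
      exact hq2 γ hγ1 ⟨hγ2, hγ3⟩
    obtain ⟨γ, hγ1, hγ2⟩ := h3
    simp only [mem_iUnion]
    refine ⟨γ, ⟨?_, ?_⟩, hγ1⟩
    · obtain ⟨q, hq⟩ := hγ2.exists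
      exact hq.1
    · filter_upwards [hγ2] with q hq
      exact hq.2
  obtain ⟨T, hT1, hT2, hT3⟩ := exists_dec hr (M + 1) hZu
  have h1 : ∀ᶠ q : A₃ in (𝒰 : Filter A₃), ∀ γ ∈ T, ∃ ξ ∈ q.1.F, γ ∈ k ξ :=
    (Filter.eventually_all_finset T).2 fun γ hγ => (hT1 hγ).2
  obtain ⟨q, hq⟩ := h1.exists
  have h2 : T ⊆ q.1.F.biUnion fun ξ => T.filter (· ∈ k ξ) := by
    intro γ hγ
    obtain ⟨ξ, hξ1, hξ2⟩ := hq γ hγ
    rw [Finset.mem_biUnion]
    exact ⟨ξ, hξ1, Finset.mem_filter.2 ⟨hγ, hξ2⟩⟩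
  have h3 : T.card ≤ ∑ ξ ∈ q.1.F, N ξ := by
    refine (Finset.card_le_card h2).trans (Finset.card_biUnion_le.trans ?_)
    apply Finset.sum_le_sum
    intro ξ _
    apply hk ξ
    · intro γ hγ
      exact (Finset.mem_filter.1 hγ).2
    · refine hT3.mono ?_
      intro γ hγ
      exact (Finset.mem_filter.1 hγ).1
  have h4 : ∑ ξ ∈ q.1.F, N ξ = M := q.2.1.1.2.2
  omega

/-- Under Martin's axiom `ω₁` splits into countably many pieces meeting each of `ℵ₁` given thin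
sets in finite sets. -/
theorem exists_split (hMA : MartinAxiomAlephOne) {r : W → ℝ} (hr : Function.Injective r)
    (hΞ : #Ξ ≤ aleph 1) {N : Ξ → ℕ}
    (hk : ∀ ξ, ∀ T : Finset W, (T : Set W) ⊆ k ξ → StrictAntiOn r T → T.card ≤ N ξ) :
    ∃ c : W → ℕ, ∀ ξ j, {γ | c γ = j ∧ γ ∈ k ξ}.Finite := by
  classical
  have hne : Nonempty (Cond k) := ⟨⟨∅, fun _ => 0, ∅, 0⟩⟩
  obtain ⟨G, hG0, hG1, hG2, hG3⟩ := hMA (Cond k) (ccc hr hk) (W ⊕ (Ξ × ℕ))
    (fun i => Sum.elim (fun γ => {p | γ ∈ p.dom}) (fun x => {p | x.1 ∈ p.F ∧ x.2 ≤ p.n}) i) (by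
      rw [mk_sum, lift_id, lift_id, mk_prod, lift_id, lift_id, mk_W, mk_nat]
      have h0 : ℵ₀ ≤ aleph.{0} 1 := aleph0_le_aleph 1
      refine (add_le_add le_rfl (mul_le_mul' hΞ h0)).trans ?_
      rw [mul_eq_self h0, add_eq_self h0]) (by
    rintro (γ | ⟨ξ, m⟩) p
    · by_cases hγ : γ ∈ p.dom
      · exact ⟨p, le_rfl, hγ⟩
      · refine ⟨⟨insert γ p.dom, fun x => if x = γ then p.n else p.col x, p.F, p.n⟩, ?_,
          Finset.mem_insert_self _ _⟩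
        rw [le_iff]
        refine ⟨Finset.subset_insert _ _, ?_, subset_rfl, le_rfl, ?_⟩
        · intro x hx
          have : x ≠ γ := fun h => hγ (h ▸ hx)
          simp only [if_neg this]
        · intro x hx1 hx2 hx3
          have h1 : x = γ := (Finset.mem_insert.1 hx1).resolve_right hx2
          simp only [if_pos h1] at hx3
          exact absurd hx3 (lt_irrefl _)
    · refine ⟨⟨p.dom, p.col, insert ξ p.F, max p.n m⟩, ?_, ?_⟩
      · rw [le_iff]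
        exact ⟨subset_rfl, fun _ _ => rfl, Finset.subset_insert _ _, le_max_left _ _,
          fun γ h1 h2 => absurd h1 h2⟩
      · exact ⟨Finset.mem_insert_self _ _, le_max_right _ _⟩)
  have hG3' : ∀ γ : W, ∃ p ∈ G, γ ∈ p.dom := fun γ => hG3 (Sum.inl γ)
  choose P hP1 hP2 using hG3'
  refine ⟨fun γ => (P γ).col γ, ?_⟩
  intro ξ j
  obtain ⟨p, hp1, hp2⟩ := hG3 (Sum.inr (ξ, j + 1))
  have hp3 : ξ ∈ p.F := hp2.1
  have hp4 : j + 1 ≤ p.n := hp2.2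
  refine (p.dom.finite_toSet).subset ?_
  rintro γ ⟨h1, h2⟩
  obtain ⟨s, hs1, hs2, hs3⟩ := hG1 p hp1 (P γ) (hP1 γ)
  rw [le_iff] at hs2 hs3
  by_contra hcon
  refine hs2.2.2.2.2 γ (hs3.1 (hP2 γ)) hcon ?_ ξ hp3 h2
  rw [hs3.2.1 γ (hP2 γ)]
  simp only at h1
  omega

end Poset

end Pool.Agent.Helper48K9.SE
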