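import Pool.Agent.Helper48K9.SE.Space
import Pool.Agent.Helper48K9.SE.MA
import Pool.Agent.Helper47.SE.SE6

/-!
# Under Martin's axiom all renormings of the space have semi-Eberlein dual balls
-/

set_option autoImplicit false

open Set Cardinal Filter Topology
open scoped ENNReal

namespace Pool.Agent.Helper48K9.SE

variable {r : W → ℝ}

/-- countable sets approximating everything on a finite set of coordinates -/
theorem exists_approx {B : Type} [Nonempty B] (h : B → W → ℝ) (F : Finset W) :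
    ∃ d : ℕ → B, ∀ φ : B, ∀ ε : ℝ, 0 < ε → ∃ n, ∀ γ ∈ F, |h (d n) γ - h φ γ| < ε := by
  let π : B → (F → ℝ) := fun φ γ => h φ γ
  obtain ⟨t, ht1, ht2, ht3⟩ := (TopologicalSpace.IsSeparable.of_separableSpace
    (range π)).exists_countable_dense_subset
  have hch : ∀ y : t, ∃ d : B, π d = y := by
    intro y
    obtain ⟨d, hd⟩ := ht1 y.2
    exact ⟨d, hd⟩
  choose d hd using hch
  have : Countable t := ht2.to_subtype
  have htne : Nonempty t := by
    by_contra hcon
    rw [not_nonempty_iff] at hcon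
    have h1 : π (Classical.arbitrary B) ∈ closure t := ht3 ⟨_, rfl⟩
    have h2 : t = ∅ := Set.isEmpty_coe_sort.1 hcon
    rw [h2, closure_empty] at h1
    exact h1
  obtain ⟨g, hg⟩ := exists_surjective_nat t
  refine ⟨fun n => d (g n), ?_⟩
  intro φ ε hε
  have h1 : π φ ∈ closure t := ht3 ⟨_, rfl⟩
  obtain ⟨y, hy, hy2⟩ := Metric.mem_closure_iff.1 h1 ε hε
  obtain ⟨n, hn⟩ := hg ⟨y, hy⟩
  refine ⟨n, ?_⟩
  intro γ hγ
  have h5 : dist (π φ) (π (d (g n))) < ε := by rw [hd, hn]; exact hy2
  have h6 := (dist_pi_lt_iff hε).1 h5 ⟨γ, hγ⟩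
  rw [dist_comm, Real.dist_eq] at h6
  exact h6

theorem semi_of_MA (hMA : MartinAxiomAlephOne) (hr : Function.Injective r)
    (N : Seminorm ℝ (XX r)) {C : ℝ} (hC0 : 0 < C) (hN : ∀ x, N x ≤ C * ‖x‖) :
    ∃ (Γ : Type) (e : {f : WeakDual ℝ (XX r) | ∀ x : XX r, |f x| ≤ N x} → (Γ → ℝ)),
      IsEmbedding e ∧ (∀ s γ, e s γ ∈ Icc (0 : ℝ) 1) ∧
        Dense {s | Tendsto (e s) cofinite (𝓝 0)} := by
  classical
  set B : Set (WeakDual ℝ (XX r)) := {f : WeakDual ℝ (XX r) | ∀ x : XX r, |f x| ≤ N x} with hB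
  have hBc : IsCompact B := Pool.Agent.Helper47.SE.isCompact_BN N hN
  have : CompactSpace B := isCompact_iff_compactSpace.1 hBc
  have hBne : Nonempty B := ⟨⟨0, fun x => by
    have : (0 : WeakDual ℝ (XX r)) x = 0 := rfl
    rw [this, abs_zero]
    exact apply_nonneg N x⟩⟩
  have hfC : ∀ (f : B) x, |f.1 x| ≤ C * ‖x‖ := fun f x => (f.2 x).trans (hN x)
  -- the coordinates
  let h : B → W → ℝ := fun f γ => f.1 (ee r γ)
  have hcont : ∀ γ, Continuous fun f : B => h f γ := fun γ =>
    (WeakDual.eval_continuous (ee r γ)).comp continuous_subtype_val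
  have hh : Continuous h := continuous_pi hcont
  have hhC : ∀ f γ, |h f γ| ≤ C := by
    intro f γ
    refine (hfC f _).trans ?_
    have := norm_ee_le (r := r) γ
    nlinarith
  have hinj : Function.Injective h := by
    intro f g hfg
    apply Subtype.ext
    have h1 : (WeakDual.toStrongDual f.1) = (WeakDual.toStrongDual g.1) := by
      apply ContinuousLinearMap.ext_on dense_span_ee
      rintro _ ⟨γ, rfl⟩
      exact congrFun hfg γ
    exact WeakDual.toStrongDual.injective h1
  have hemb : IsEmbedding h := (hh.isClosedEmbedding hinj).isEmbedding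
  -- the dense set
  choose d hd using fun F : Finset W => exists_approx h F
  let Ξ : Type := (Finset W × ℕ) × ℕ
  let k : Ξ → Set W := fun x => {γ | 1 / ((x.2 : ℝ) + 1) ≤ |h (d x.1.1 x.1.2) γ|}
  have hΞ : #Ξ ≤ aleph 1 := by
    have h0 : ℵ₀ ≤ aleph.{0} 1 := aleph0_le_aleph 1
    have h1 : #(Finset W) ≤ aleph 1 := by
      have : Infinite W := by
        rw [infinite_iff, mk_W]
        exact h0
      rw [mk_finset_of_infinite, mk_W]
    show #((Finset W × ℕ) × ℕ) ≤ _
    rw [mk_prod, mk_prod]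
    simp only [lift_id, mk_nat]
    calc #(Finset W) * ℵ₀ * ℵ₀ ≤ aleph 1 * aleph 1 * aleph 1 :=
          mul_le_mul' (mul_le_mul' h1 h0) h0
      _ = aleph 1 := by rw [mul_eq_self h0, mul_eq_self h0]
  obtain ⟨c, hc⟩ := exists_split hMA hr (k := k) hΞ
    (N := fun x => ⌈C * ((x.2 : ℝ) + 1)⌉₊) (by
      intro x T hT1 hT2
      have h1 := card_dec_le (r := r) (f := fun y => (d x.1.1 x.1.2).1 y)
        (fun a b => map_add _ a b) (fun t a => by rw [map_smul, smul_eq_mul])
        (hfC (d x.1.1 x.1.2)) hC0.le T hT2 (ε := 1 / ((x.2 : ℝ) + 1)) (fun γ hγ => hT1 hγ)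
      have h2 : (0 : ℝ) < (x.2 : ℝ) + 1 := by positivity
      have h3 : (T.card : ℝ) ≤ C * ((x.2 : ℝ) + 1) := by
        rw [one_div, inv_mul_le_iff₀ h2] at h1
        linarith
      exact_mod_cast h3.trans (Nat.le_ceil _))
  -- the embedding
  let e : B → (W × Bool → ℝ) := fun f x =>
    max (if x.2 then h f x.1 else - h f x.1) 0 / (C * ((c x.1 : ℝ) + 1))
  have hden : ∀ γ, 0 < C * ((c γ : ℝ) + 1) := fun γ => by positivity
  have he : Continuous e := by
    apply continuous_pi
    rintro ⟨γ, b⟩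
    apply Continuous.div_const
    apply Continuous.max _ continuous_const
    cases b
    · simp only [Bool.false_eq_true, if_false]
      exact (hcont γ).neg
    · simp only [if_true]
      exact hcont γ
  have heinj : Function.Injective e := by
    intro f g hfg
    apply hinj
    ext γ
    have h1 := congrFun hfg (γ, true)
    have h2 := congrFun hfg (γ, false)
    simp only [e, if_true, Bool.false_eq_true, if_false] at h1 h2
    rw [div_left_inj' (hden γ).ne'] at h1 h2
    have h3 : ∀ x : ℝ, x = max x 0 - max (-x) 0 := by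
      intro x
      rcases le_total 0 x with h | h
      · rw [max_eq_left h, max_eq_right (by linarith)]; ring
      · rw [max_eq_right h, max_eq_left (by linarith)]; ring
    rw [h3 (h f γ), h3 (h g γ), h1, h2]
  refine ⟨W × Bool, e, (he.isClosedEmbedding heinj).isEmbedding, ?_, ?_⟩
  · rintro f ⟨γ, b⟩
    refine ⟨div_nonneg (le_max_right _ _) (hden γ).le, ?_⟩
    rw [div_le_one (hden γ)]
    have h1 := hhC f γ
    have h2 : C ≤ C * ((c γ : ℝ) + 1) := by
      have : (0 : ℝ) ≤ C * (c γ : ℝ) := by positivity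
      nlinarith
    apply max_le
    · split_ifs
      · exact (le_abs_self _).trans (h1.trans h2)
      · exact (neg_le_abs _).trans (h1.trans h2)
    · exact (hden γ).le
  · -- density
    have hsub : ∀ F n, Tendsto (e (d F n)) cofinite (𝓝 0) := by
      intro F n
      rw [Metric.tendsto_nhds]
      intro δ hδ
      rw [eventually_cofinite]
      obtain ⟨J, hJ⟩ := exists_nat_gt (1 / δ)
      obtain ⟨m, hm⟩ := exists_nat_one_div_lt (mul_pos hδ hC0)
      have hfin : (⋃ j ∈ Finset.range J, {γ | c γ = j ∧ γ ∈ k ((F, n), m)}).Finite :=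
        (Finset.range J).finite_toSet.biUnion fun j _ => hc ((F, n), m) j
      refine (hfin.prod (Set.finite_univ (α := Bool))).subset ?_
      rintro ⟨γ, b⟩ hγ
      refine ⟨?_, mem_univ _⟩
      rw [mem_ofPred_eq, Real.dist_eq, sub_zero, not_lt] at hγ
      have h1 : |e (d F n) (γ, b)| ≤ |h (d F n) γ| / (C * ((c γ : ℝ) + 1)) := by
        rw [abs_of_nonneg (div_nonneg (le_max_right _ _) (hden γ).le)]
        apply div_le_div_of_nonneg_right _ (hden γ).le
        apply max_le
        · split_ifs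
          · exact le_abs_self _
          · exact neg_le_abs _
        · exact abs_nonneg _
      have h2 := hγ.trans h1
      rw [le_div_iff₀ (hden γ)] at h2
      have h3 := hhC (d F n) γ
      have hcγ : (0 : ℝ) ≤ (c γ : ℝ) := Nat.cast_nonneg _
      simp only [mem_iUnion, Finset.mem_range]
      refine ⟨c γ, ?_, rfl, ?_⟩
      · have h4 : δ * ((c γ : ℝ) + 1) ≤ 1 := by
          have h5 : C * (δ * ((c γ : ℝ) + 1)) ≤ C * 1 := by nlinarith
          exact le_of_mul_le_mul_left h5 hC0
        have h6 : (c γ : ℝ) < 1 / δ := by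
          rw [lt_div_iff₀ hδ]
          nlinarith
        exact_mod_cast h6.trans hJ
      · show 1 / ((m : ℝ) + 1) ≤ |h (d F n) γ|
        have h4 : δ * C ≤ δ * (C * ((c γ : ℝ) + 1)) := by
          have : 0 ≤ δ * C * (c γ : ℝ) := by positivity
          nlinarith
        linarith
    rw [hemb.isInducing.dense_iff]
    intro f
    rw [mem_closure_iff_nhds]
    intro t ht
    rw [nhds_pi, Filter.mem_pi] at ht
    obtain ⟨I, hI, u, hu, hut⟩ := ht
    have h1 : ∀ᶠ ε in 𝓝[>] (0 : ℝ), ∀ γ ∈ I, Metric.ball (h f γ) ε ⊆ u γ := by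
      rw [Filter.eventually_all_finite hI]
      intro γ _
      obtain ⟨ε, hε, hε2⟩ := Metric.mem_nhds_iff.1 (hu γ)
      have h2 : Ioo (0 : ℝ) ε ∈ 𝓝[>] (0 : ℝ) := Ioo_mem_nhdsGT hε
      filter_upwards [h2] with ε' hε'
      exact (Metric.ball_subset_ball hε'.2.le).trans hε2
    obtain ⟨ε, hε, hε0⟩ := (h1.and self_mem_nhdsWithin).exists
    obtain ⟨n, hn⟩ := hd hI.toFinset f ε hε0
    refine ⟨h (d hI.toFinset n), hut ?_, ⟨_, hsub _ _, rfl⟩⟩
    intro γ hγ
    apply hε γ hγ
    rw [Metric.mem_ball, Real.dist_eq]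
    exact hn γ (hI.mem_toFinset.2 hγ)

end Pool.Agent.Helper48K9.SE
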