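import Mathlib

/-!
# Sierpinski's ordering of `ω₁`

`W` is the well-order of type `ω₁` and `r : W → ℝ` is injective. Uncountable subsets of `W`
contain finite sets of every size on which `r` is decreasing, and infinite sequences on which `r`
is increasing.
-/

set_option autoImplicit false

open Set Cardinal

namespace Pool.Agent.Helper48K9.SE

/-- the well-order of type `ω₁` -/
abbrev W : Type := (aleph.{0} 1).ord.ToType

theorem mk_W : #W = aleph.{0} 1 := mk_ord_toType _

theorem countable_Iic (z : W) : (Iic z).Countable := by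
  have h1 : #(Iio z) < aleph 1 := mk_Iio_toType_ord_lt z
  have h2 : (Iio z).Countable := by
    rw [← Cardinal.le_aleph0_iff_set_countable]
    have h3 : (aleph.{0} 1) = Order.succ ℵ₀ := by
      rw [← aleph_zero, succ_aleph, zero_add]
    exact Order.lt_succ_iff.1 (h1.trans_eq h3)
  have h4 : Iic z = insert z (Iio z) := by
    ext x
    simp [le_iff_eq_or_lt]
  rw [h4]
  exact h2.insert z

variable {r : W → ℝ}

/-- an uncountable set has a point with uncountably many later, lower points -/
theorem exists_low (hr : Function.Injective r) {Z : Set W} (hZ : ¬ Z.Countable) :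
    ∃ z ∈ Z, ¬ {y ∈ Z | z < y ∧ r y < r z}.Countable := by
  by_contra hcon
  push Not at hcon
  apply hZ
  have h1 : ∀ z ∈ Z, {y ∈ Z | r y < r z}.Countable := by
    intro z hz
    refine ((hcon z hz).union (countable_Iic z)).mono ?_
    rintro y ⟨hy1, hy2⟩
    rcases lt_or_ge z y with h | h
    · exact Or.inl ⟨hy1, h, hy2⟩
    · exact Or.inr h
  classical
  have h2 : ∀ q : ℚ, {y ∈ Z | r y < q ∧ ∃ z ∈ Z, (q : ℝ) < r z}.Countable := by
    intro q
    by_cases hq : ∃ z ∈ Z, (q : ℝ) < r z
    · obtain ⟨z, hz, hqz⟩ := hq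
      refine (h1 z hz).mono ?_
      rintro y ⟨hy1, hy2, -⟩
      exact ⟨hy1, hy2.trans hqz⟩
    · refine (countable_empty).mono ?_
      rintro y ⟨-, -, h⟩
      exact (hq h).elim
  have h3 : {y ∈ Z | ∀ z ∈ Z, r z ≤ r y}.Countable := by
    apply Set.Subsingleton.countable
    rintro a ⟨ha1, ha2⟩ b ⟨hb1, hb2⟩
    exact hr (le_antisymm (hb2 a ha1) (ha2 b hb1))
  refine ((countable_iUnion h2).union h3).mono ?_
  intro y hy
  by_cases hmax : ∀ z ∈ Z, r z ≤ r y
  · exact Or.inr ⟨hy, hmax⟩
  · push Not at hmax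
    obtain ⟨z, hz, hlt⟩ := hmax
    obtain ⟨q, hq1, hq2⟩ := exists_rat_btwn hlt
    exact Or.inl (mem_iUnion.2 ⟨q, hy, hq1, z, hz, hq2⟩)

theorem exists_high (hr : Function.Injective r) {Z : Set W} (hZ : ¬ Z.Countable) :
    ∃ z ∈ Z, ¬ {y ∈ Z | z < y ∧ r z < r y}.Countable := by
  obtain ⟨z, hz, h⟩ := exists_low (r := fun x => - r x) (fun a b hab => hr (neg_injective hab)) hZ
  refine ⟨z, hz, ?_⟩
  simpa only [neg_lt_neg_iff] using h

/-- arbitrarily long decreasing finite sets -/
theorem exists_dec (hr : Function.Injective r) (n : ℕ) : ∀ {Z : Set W}, ¬ Z.Countable →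
    ∃ T : Finset W, (T : Set W) ⊆ Z ∧ T.card = n ∧ StrictAntiOn r T := by
  classical
  induction n with
  | zero =>
    intro Z _
    exact ⟨∅, by simp, rfl, fun a ha => absurd ha (by simp)⟩
  | succ n ih =>
    intro Z hZ
    obtain ⟨z, hz, h⟩ := exists_low hr hZ
    obtain ⟨T, hT1, hT2, hT3⟩ := ih h
    have hzT : z ∉ T := fun hm => lt_irrefl _ (hT1 hm).2.1
    refine ⟨insert z T, ?_, ?_, ?_⟩
    · rw [Finset.coe_insert, insert_subset_iff]
      exact ⟨hz, fun y hy => (hT1 hy).1⟩
    · rw [Finset.card_insert_of_notMem hzT, hT2]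
    · intro a ha b hb hab
      rw [Finset.coe_insert, mem_insert_iff] at ha hb
      rcases ha with rfl | ha
      · rcases hb with rfl | hb
        · exact absurd hab (lt_irrefl _)
        · exact (hT1 hb).2.2
      · rcases hb with rfl | hb
        · exact absurd (hab.trans (hT1 ha).2.1) (lt_irrefl _)
        · exact hT3 ha hb hab

/-- infinite increasing sequences -/
theorem exists_inc (hr : Function.Injective r) {Z : Set W} (hZ : ¬ Z.Countable) :
    ∃ s : ℕ → W, StrictMono s ∧ StrictMono (fun i => r (s i)) ∧ ∀ i, s i ∈ Z := by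
  classical
  have hex : ∀ Y : {Y : Set W // ¬ Y.Countable}, ∃ z ∈ Y.1,
      ¬ {y ∈ Y.1 | z < y ∧ r z < r y}.Countable := fun Y => exists_high hr Y.2
  choose z hz1 hz2 using hex
  let step : {Y : Set W // ¬ Y.Countable} → {Y : Set W // ¬ Y.Countable} := fun Y =>
    ⟨{y ∈ Y.1 | z Y < y ∧ r (z Y) < r y}, hz2 Y⟩
  let Y : ℕ → {Y : Set W // ¬ Y.Countable} := fun n => Nat.rec ⟨Z, hZ⟩ (fun _ y => step y) n
  have hYs : ∀ n, Y (n + 1) = step (Y n) := fun n => rfl
  have hmem : ∀ n, z (Y (n + 1)) ∈ (step (Y n)).1 := by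
    intro n
    have := hz1 (Y (n + 1))
    rw [hYs n] at this ⊢
    exact this
  have hZn : ∀ n, (Y n).1 ⊆ Z := by
    intro n
    induction n with
    | zero => exact subset_rfl
    | succ n ih =>
      intro y hy
      rw [hYs n] at hy
      exact ih hy.1
  refine ⟨fun n => z (Y n), strictMono_nat_of_lt_succ fun n => (hmem n).2.1,
    strictMono_nat_of_lt_succ fun n => (hmem n).2.2, fun n => hZn n (hz1 (Y n))⟩

/-- sets without long decreasing subsets are countable -/
theorem countable_of_thin (hr : Function.Injective r) {k : Set W} {N : ℕ}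
    (hk : ∀ T : Finset W, (T : Set W) ⊆ k → StrictAntiOn r T → T.card ≤ N) : k.Countable := by
  by_contra hcon
  obtain ⟨T, hT1, hT2, hT3⟩ := exists_dec hr (N + 1) hcon
  have := hk T hT1 hT3
  omega

end Pool.Agent.Helper48K9.SE
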