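import Pool.Agent.Helper48K9.SE.Sier

/-!
# The Banach space of Sierpinski's ordering
-/

set_option autoImplicit false

open Set Cardinal
open scoped ENNReal

namespace Pool.Agent.Helper48K9.SE

/-- the index set: functions `a : ω₁ → [-1, 1]` on whose support `r` is increasing -/
def Idx (r : W → ℝ) : Type :=
  {a : W → ℝ // (∀ γ, |a γ| ≤ 1) ∧ StrictMonoOn r (Function.support a)}

/-- the vector `e γ` as a bounded function on the index set -/
noncomputable def ev (r : W → ℝ) (γ : W) : lp (fun _ : Idx r => ℝ) ∞ :=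
  ⟨fun a => a.1 γ, memℓp_infty ⟨1, by rintro _ ⟨a, rfl⟩; exact a.2.1 γ⟩⟩

/-- the space: the closed linear span of the vectors `e γ` in `ℓ_∞` -/
abbrev XX (r : W → ℝ) : Type :=
  ↥((Submodule.span ℝ (Set.range (ev r))).topologicalClosure)

variable {r : W → ℝ}

theorem ev_apply (γ : W) (a : Idx r) : (ev r γ : Idx r → ℝ) a = a.1 γ := rfl

/-- the vector `e γ` -/
noncomputable def ee (r : W → ℝ) (γ : W) : XX r :=
  ⟨ev r γ, Submodule.le_topologicalClosure _ (Submodule.subset_span ⟨γ, rfl⟩)⟩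

theorem dense_span_ee : Dense (Submodule.span ℝ (Set.range (ee r)) : Set (XX r)) := by
  have h1 : Topology.IsInducing (Subtype.val : XX r → lp (fun _ : Idx r => ℝ) ∞) :=
    Topology.IsInducing.subtypeVal
  rw [h1.dense_iff]
  intro x
  have h2 : (Subtype.val '' (Submodule.span ℝ (Set.range (ee r)) : Set (XX r))) =
      (Submodule.span ℝ (Set.range (ev r)) : Set (lp (fun _ : Idx r => ℝ) ∞)) := by
    have h3 := Submodule.map_span ((Submodule.span ℝ (Set.range (ev r))).topologicalClosure).subtype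
      (Set.range (ee r))
    have h4 : (⇑((Submodule.span ℝ (Set.range (ev r))).topologicalClosure).subtype '' Set.range (ee r)) =
        Set.range (ev r) := by
      rw [← Set.range_comp]
      rfl
    rw [h4] at h3
    exact congrArg (fun S : Submodule ℝ (lp (fun _ : Idx r => ℝ) ∞) =>
      (S : Set (lp (fun _ : Idx r => ℝ) ∞))) h3
  rw [h2]
  exact x.2

/-- a combination of the vectors `e γ` evaluated at an index -/
theorem sum_apply {ι : Type} (T : Finset ι) (b : ι → ℝ) (s : ι → W) (a : Idx r) :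
    ((∑ i ∈ T, b i • ev r (s i) : lp (fun _ : Idx r => ℝ) ∞) : Idx r → ℝ) a =
      ∑ i ∈ T, b i * a.1 (s i) := by
  classical
  induction T using Finset.induction_on with
  | empty => simp
  | insert i T hi ih =>
    rw [Finset.sum_insert hi, Finset.sum_insert hi, lp.coeFn_add, Pi.add_apply, ih,
      lp.coeFn_smul, Pi.smul_apply, ev_apply, smul_eq_mul]

theorem coe_sum {ι : Type} (T : Finset ι) (b : ι → ℝ) (s : ι → W) :
    ((∑ i ∈ T, b i • ee r (s i) : XX r) : lp (fun _ : Idx r => ℝ) ∞) =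
      ∑ i ∈ T, b i • ev r (s i) := by
  rw [Submodule.coe_sum]
  rfl

/-- the norm is at most one on decreasing sets -/
theorem norm_dec (T : Finset W) (hT : StrictAntiOn r T) (b : W → ℝ) (hb : ∀ γ, |b γ| ≤ 1) :
    ‖(∑ γ ∈ T, b γ • ee r γ : XX r)‖ ≤ 1 := by
  classical
  have h0 := coe_sum (r := r) T b (fun γ => γ)
  rw [Submodule.coe_norm, h0]
  apply lp.norm_le_of_forall_le zero_le_one
  intro a
  rw [sum_apply T b (fun γ => γ) a]
  have h1 : (T.filter (fun γ => a.1 γ ≠ 0)).card ≤ 1 := by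
    rw [Finset.card_le_one]
    intro x hx y hy
    rw [Finset.mem_filter] at hx hy
    rcases lt_trichotomy x y with h | h | h
    · exact absurd (hT hx.1 hy.1 h) (not_lt.2 (a.2.2 hx.2 hy.2 h).le)
    · exact h
    · exact absurd (hT hy.1 hx.1 h) (not_lt.2 (a.2.2 hy.2 hx.2 h).le)
  have h2 : ∑ γ ∈ T, b γ * a.1 γ = ∑ γ ∈ T.filter (fun γ => a.1 γ ≠ 0), b γ * a.1 γ := by
    rw [Finset.sum_filter]
    apply Finset.sum_congr rfl
    intro x _
    split_ifs with h
    · rfl
    · push Not at h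
      rw [h, mul_zero]
  rw [h2, Real.norm_eq_abs]
  refine (Finset.abs_sum_le_sum_abs _ _).trans ?_
  refine (Finset.sum_le_card_nsmul _ _ 1 ?_).trans ?_
  · intro x _
    rw [abs_mul]
    exact mul_le_one₀ (hb x) (abs_nonneg _) (a.2.1 x)
  · rw [nsmul_eq_mul, mul_one]
    exact_mod_cast h1

theorem norm_ee_le (γ : W) : ‖ee r γ‖ ≤ 1 := by
  have h := norm_dec (r := r) {γ} (by simp) (fun _ => 1) (fun _ => by simp)
  simpa using h

/-- increasing sequences span isometric copies of `ℓ_1` -/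
theorem norm_inc {s : ℕ → W} (hs : StrictMono s) (hrs : StrictMono fun i => r (s i))
    (T : Finset ℕ) (b : ℕ → ℝ) :
    ∑ i ∈ T, |b i| ≤ ‖(∑ i ∈ T, b i • ee r (s i) : XX r)‖ := by
  classical
  let a : W → ℝ := Function.extend s (fun i => (SignType.sign (b i) : ℝ)) 0
  have ha : ∀ i, a (s i) = (SignType.sign (b i) : ℝ) := fun i => hs.injective.extend_apply _ _ i
  have ha0 : ∀ γ, γ ∉ Set.range s → a γ = 0 := fun γ hγ =>
    Function.extend_apply' _ _ _ hγ
  have hsup : Function.support a ⊆ Set.range s := by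
    intro γ hγ
    by_contra hcon
    exact hγ (ha0 γ hcon)
  have ha1 : ∀ γ, |a γ| ≤ 1 := by
    intro γ
    by_cases hγ : γ ∈ Set.range s
    · obtain ⟨i, rfl⟩ := hγ
      rw [ha]
      rcases lt_trichotomy (b i) 0 with h | h | h
      · simp [sign_neg h]
      · simp [h]
      · simp [sign_pos h]
    · rw [ha0 γ hγ]
      simp
  have hmono : StrictMonoOn r (Function.support a) := by
    intro x hx y hy hxy
    obtain ⟨i, rfl⟩ := hsup hx
    obtain ⟨j, rfl⟩ := hsup hy
    exact hrs (hs.lt_iff_lt.1 hxy)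
  let A : Idx r := ⟨a, ha1, hmono⟩
  rw [Submodule.coe_norm, coe_sum]
  have h1 := lp.norm_apply_le_norm (p := ∞) (by simp)
    (∑ i ∈ T, b i • ev r (s i) : lp (fun _ : Idx r => ℝ) ∞) A
  refine le_trans ?_ h1
  rw [sum_apply, Real.norm_eq_abs]
  refine le_trans (le_of_eq ?_) (le_abs_self _)
  apply Finset.sum_congr rfl
  intro i _
  show |b i| = b i * a (s i)
  rw [ha]
  exact (self_mul_sign (b i)).symm

/-- functionals are large only on thin sets -/
theorem card_dec_le {f : XX r → ℝ} (hadd : ∀ x y, f (x + y) = f x + f y)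
    (hsmul : ∀ (t : ℝ) x, f (t • x) = t * f x) {C ε : ℝ} (hC : ∀ x, |f x| ≤ C * ‖x‖) (hC0 : 0 ≤ C)
    (T : Finset W) (hT : StrictAntiOn r T) (hε : ∀ γ ∈ T, ε ≤ |f (ee r γ)|) :
    ε * T.card ≤ C := by
  classical
  let b : W → ℝ := fun γ => (SignType.sign (f (ee r γ)) : ℝ)
  have hb : ∀ γ, |b γ| ≤ 1 := by
    intro γ
    show |(SignType.sign (f (ee r γ)) : ℝ)| ≤ 1
    rcases lt_trichotomy (f (ee r γ)) 0 with h | h | h
    · simp [sign_neg h]
    · simp [h]
    · simp [sign_pos h]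
  have hf0 : f 0 = 0 := by
    have := hsmul 0 0
    simpa using this
  have hsum : ∀ S : Finset W, f (∑ γ ∈ S, b γ • ee r γ) = ∑ γ ∈ S, |f (ee r γ)| := by
    intro S
    induction S using Finset.induction_on with
    | empty => simp [hf0]
    | insert i S hi ih =>
      rw [Finset.sum_insert hi, Finset.sum_insert hi, hadd, ih, hsmul]
      congr 1
      rw [mul_comm]
      exact self_mul_sign (f (ee r i))
  have h1 : ε * T.card ≤ ∑ γ ∈ T, |f (ee r γ)| := by
    have := Finset.card_nsmul_le_sum T (fun γ => |f (ee r γ)|) ε hε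
    rw [nsmul_eq_mul] at this
    linarith
  have h2 := hC (∑ γ ∈ T, b γ • ee r γ)
  rw [hsum] at h2
  have h3 := norm_dec T hT b hb
  calc ε * T.card ≤ ∑ γ ∈ T, |f (ee r γ)| := h1
    _ ≤ abs (∑ γ ∈ T, |f (ee r γ)|) := le_abs_self _
    _ ≤ C * ‖(∑ γ ∈ T, b γ • ee r γ : XX r)‖ := h2
    _ ≤ C * 1 := by gcongr
    _ = C := mul_one C

end Pool.Agent.Helper48K9.SE
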