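import Pool.Agent.Helper48K9.SE.Space

/-!
# The space is not a subspace of a weakly compactly generated space
-/

set_option autoImplicit false

open Set Cardinal Filter Topology
open scoped ENNReal

namespace Pool.Agent.Helper48K9.SE

variable {r : W → ℝ}

theorem not_wcg (hr : Function.Injective r) {Y : Type} [NormedAddCommGroup Y] [NormedSpace ℝ Y]
    {K : Set Y} (hK : IsCompact (toWeakSpace ℝ Y '' K)) (hKd : Dense (Submodule.span ℝ K : Set Y))
    (T : XX r →L[ℝ] Y) {c : ℝ} (hc : 0 < c) (hT : ∀ x, c * ‖x‖ ≤ ‖T x‖) : False := by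
  classical
  -- the weakly compact sets
  let S : ℕ → ℕ → Set Y := fun m M => {y | ∃ (κ : Fin m → Y) (a : Fin m → ℝ), (∀ j, κ j ∈ K) ∧
    (∀ j, |a j| ≤ M) ∧ y = ∑ j, a j • κ j}
  have hS : ∀ m M, IsCompact (toWeakSpace ℝ Y '' S m M) := by
    intro m M
    let Φ : (Fin m → WeakSpace ℝ Y) × (Fin m → ℝ) → WeakSpace ℝ Y := fun p => ∑ j, p.2 j • p.1 j
    have hΦ : Continuous Φ := by
      apply continuous_finsetSum
      intro j _
      exact ((continuous_apply j).comp continuous_snd).smul ((continuous_apply j).comp continuous_fst)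
    have h1 : IsCompact ((Set.pi univ fun _ : Fin m => toWeakSpace ℝ Y '' K) ×ˢ
        (Set.pi univ fun _ : Fin m => Icc (-(M : ℝ)) M)) :=
      (isCompact_univ_pi fun _ => hK).prod (isCompact_univ_pi fun _ => isCompact_Icc)
    have h2 := h1.image hΦ
    convert h2 using 1
    ext w
    constructor
    · rintro ⟨y, ⟨κ, a, h3, h4, rfl⟩, rfl⟩
      refine ⟨(fun j => toWeakSpace ℝ Y (κ j), a), ⟨?_, ?_⟩, ?_⟩
      · intro j _
        exact ⟨κ j, h3 j, rfl⟩
      · intro j _
        exact abs_le.1 (h4 j)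
      · show ∑ j, a j • toWeakSpace ℝ Y (κ j) = _
        rw [map_sum]
        apply Finset.sum_congr rfl
        intro j _
        rw [map_smul]
    · rintro ⟨⟨κ, a⟩, ⟨h3, h4⟩, rfl⟩
      have h3' : ∀ j, ∃ y ∈ K, toWeakSpace ℝ Y y = κ j := fun j => h3 j (mem_univ j)
      choose y hy1 hy2 using h3'
      refine ⟨∑ j, a j • y j, ⟨y, a, hy1, fun j => abs_le.2 (h4 j (mem_univ j)), rfl⟩, ?_⟩
      show _ = ∑ j, a j • κ j
      rw [map_sum]
      apply Finset.sum_congr rfl
      intro j _
      rw [map_smul, hy2]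
  -- one of them is close to uncountably many vectors
  obtain ⟨m, M, hZ⟩ : ∃ m M, ¬ {γ | ∃ y ∈ S m M, ‖T (ee r γ) - y‖ < c / 2}.Countable := by
    by_contra hcon
    push Not at hcon
    have h1 : (univ : Set W).Countable := by
      refine (countable_iUnion fun m => countable_iUnion fun M => hcon m M).mono ?_
      intro γ _
      simp only [mem_iUnion]
      have h2 : T (ee r γ) ∈ closure (Submodule.span ℝ K : Set Y) := hKd _
      obtain ⟨y, hy, hy2⟩ := Metric.mem_closure_iff.1 h2 (c / 2) (half_pos hc)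
      obtain ⟨m, a, κ, hκ⟩ := Submodule.mem_span_set'.1 hy
      obtain ⟨M, hM⟩ := exists_nat_ge (∑ j, |a j|)
      refine ⟨m, M, y, ⟨fun j => (κ j : Y), a, fun j => (κ j).2, fun j => ?_, hκ.symm⟩, ?_⟩
      · exact (Finset.single_le_sum (f := fun j => |a j|) (fun i _ => abs_nonneg _)
          (Finset.mem_univ j)).trans hM
      · rw [← dist_eq_norm]
        exact hy2
    rw [countable_univ_iff] at h1
    have h2 : #W ≤ ℵ₀ := mk_le_aleph0_iff.2 h1
    rw [mk_W] at h2
    exact absurd h2 (not_le.2 (aleph0_lt_aleph_one))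
  obtain ⟨s, hs1, hs2, hs3⟩ := exists_inc hr hZ
  choose y hy1 hy2 using hs3
  -- the sequence `y` behaves like the basis of `ℓ_1`
  have hl1 : ∀ (F : Finset ℕ) (b : ℕ → ℝ), c / 2 * ∑ i ∈ F, |b i| ≤ ‖∑ i ∈ F, b i • y i‖ := by
    intro F b
    have h1 : c * ∑ i ∈ F, |b i| ≤ ‖∑ i ∈ F, b i • T (ee r (s i))‖ := by
      have h2 := norm_inc hs1 hs2 F b
      have h3 := hT (∑ i ∈ F, b i • ee r (s i))
      rw [map_sum] at h3
      simp only [map_smul] at h3
      calc c * ∑ i ∈ F, |b i| ≤ c * ‖(∑ i ∈ F, b i • ee r (s i) : XX r)‖ := by gcongr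
        _ ≤ _ := h3
    have h2 : ‖∑ i ∈ F, b i • T (ee r (s i)) - ∑ i ∈ F, b i • y i‖ ≤ c / 2 * ∑ i ∈ F, |b i| := by
      rw [← Finset.sum_sub_distrib, Finset.mul_sum]
      refine norm_sum_le_of_le _ ?_
      intro i _
      rw [← smul_sub, norm_smul, Real.norm_eq_abs, mul_comm]
      exact mul_le_mul_of_nonneg_right (hy2 i).le (abs_nonneg _)
    have h3 := norm_sub_norm_le (∑ i ∈ F, b i • T (ee r (s i))) (∑ i ∈ F, b i • y i)
    linarith
  -- weak cluster point
  obtain ⟨w, hw1, hw2⟩ := (hS m M).exists_mapClusterPt (f := atTop)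
    (u := fun i => toWeakSpace ℝ Y (y i)) (tendsto_principal.2 (Eventually.of_forall fun i => ⟨y i, hy1 i, rfl⟩))
  obtain ⟨y₀, -, rfl⟩ := hw1
  rw [mapClusterPt_atTop_iff_forall_mem_closure] at hw2
  -- Mazur
  let L : (ℕ →₀ ℝ) →ₗ[ℝ] Y := Finsupp.linearCombination ℝ y
  let C : ℕ → Set Y := fun n => L '' {w | (∀ i, 0 ≤ w i) ∧ (∀ i, w i ≠ 0 → n ≤ i) ∧
    ∑ i ∈ w.support, w i = 1}
  have hC : ∀ n, y₀ ∈ closure (C n) := by
    intro n
    have hconv : Convex ℝ (C n) := by
      apply Convex.linear_image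
      rintro u ⟨hu1, hu2, hu3⟩ v ⟨hv1, hv2, hv3⟩ a b ha hb hab
      refine ⟨?_, ?_, ?_⟩
      · intro i
        simp only [Finsupp.coe_add, Finsupp.coe_smul, Pi.add_apply, Pi.smul_apply, smul_eq_mul]
        exact add_nonneg (mul_nonneg ha (hu1 i)) (mul_nonneg hb (hv1 i))
      · intro i hi
        by_contra hlt
        have h1 : u i = 0 := by
          by_contra h; exact hlt (hu2 i h)
        have h2 : v i = 0 := by
          by_contra h; exact hlt (hv2 i h)
        apply hi
        simp [h1, h2]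
      · have h1 : ∀ w : ℕ →₀ ℝ, ∑ i ∈ w.support, w i = Finsupp.linearCombination ℝ (fun _ => (1 : ℝ)) w := by
          intro w
          rw [Finsupp.linearCombination_apply, Finsupp.sum]
          simp
        rw [h1] at hu3 hv3 ⊢
        rw [map_add, map_smul, map_smul, hu3, hv3]
        simpa using hab
    have hsub : (fun i => toWeakSpace ℝ Y (y i)) '' Ici n ⊆ toWeakSpace ℝ Y '' C n := by
      rintro _ ⟨i, hi, rfl⟩
      refine ⟨y i, ⟨Finsupp.single i 1, ⟨?_, ?_, ?_⟩, ?_⟩, rfl⟩
      · intro j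
        rw [Finsupp.single_apply]
        split_ifs <;> norm_num
      · intro j hj
        rw [Finsupp.single_apply] at hj
        have : i = j := by
          by_contra h
          rw [if_neg h] at hj
          exact hj rfl
        rw [← this]
        exact hi
      · rw [Finsupp.support_single_ne_zero i one_ne_zero]
        simp
      · show Finsupp.linearCombination ℝ y _ = _
        rw [Finsupp.linearCombination_single, one_smul]
    have h1 := closure_mono hsub (hw2 n)
    rw [← hconv.toWeakSpace_closure ℝ] at h1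
    obtain ⟨z, hz1, hz2⟩ := h1
    have : z = y₀ := (toWeakSpace ℝ Y).injective hz2
    rw [← this]
    exact hz1
  obtain ⟨_, ⟨u, ⟨hu1, -, hu3⟩, rfl⟩, hu4⟩ := Metric.mem_closure_iff.1 (hC 0) (c / 8) (by positivity)
  obtain ⟨n, hn⟩ : ∃ n, ∀ i ∈ u.support, i < n :=
    ⟨u.support.sup id + 1, fun i hi => Nat.lt_succ_of_le (Finset.le_sup (f := id) hi)⟩
  obtain ⟨_, ⟨v, ⟨hv1, hv2, hv3⟩, rfl⟩, hv4⟩ := Metric.mem_closure_iff.1 (hC n) (c / 8) (by positivity)
  have h1 : dist (L u) (L v) < c / 4 := by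
    have := dist_triangle_left (L u) (L v) y₀
    linarith
  have h2 : c / 2 ≤ dist (L u) (L v) := by
    rw [dist_eq_norm, ← map_sub]
    have h3 : L (u - v) = ∑ i ∈ u.support ∪ v.support, (u - v) i • y i := by
      show Finsupp.linearCombination ℝ y (u - v) = _
      rw [Finsupp.linearCombination_apply]
      apply Finsupp.sum_of_support_subset
      · exact Finsupp.support_sub
      · intro i _
        rw [zero_smul]
    rw [h3]
    refine le_trans ?_ (hl1 _ _)
    have h4 : (1 : ℝ) ≤ ∑ i ∈ u.support ∪ v.support, |(u - v) i| := by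
      calc (1 : ℝ) = ∑ i ∈ u.support, u i := hu3.symm
        _ = ∑ i ∈ u.support, |(u - v) i| := by
            apply Finset.sum_congr rfl
            intro i hi
            have h5 : v i = 0 := by
              by_contra h
              have := hv2 i h
              have := hn i hi
              omega
            rw [Finsupp.sub_apply, h5, sub_zero, abs_of_nonneg (hu1 i)]
        _ ≤ _ := Finset.sum_le_sum_of_subset_of_nonneg Finset.subset_union_left
            fun i _ _ => abs_nonneg _
    nlinarith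
  linarith

end Pool.Agent.Helper48K9.SE
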